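import Pool.Agent.Helper34.BK.LIk
import Pool.Agent.Helper34.BM.Comm

/-!
# The commutant of the `p`-curvature for the connection with residues `κ (e - e_l) e_lᵀ`
-/

set_option autoImplicit false

open Polynomial Matrix Finset
open Pool.Agent.Helper62.BM Pool.Agent.Helper34.BM

namespace Pool.Agent.Helper34.BK

variable {C : Type} [Field C]

theorem AD_FBg {n : ℕ} (a : Fin n → C) (ρ : Fin n → Matrix (Fin n) (Fin n) C) :
    FB a (fun l => AD (ρ l)) = AD (FB a ρ) := by
  ext s t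
  simp only [FB, AD, Matrix.of_apply, map_sub, mul_sub, Finset.sum_sub_distrib]
  congr 1
  · split_ifs <;> simp
  · split_ifs <;> simp

theorem nab_uncg {D : Der (KX C)} {n : ℕ} (a : Fin n → C) (ρ : Fin n → Matrix (Fin n) (Fin n) C)
    (M : Matrix (Fin n) (Fin n) (KX C)) :
    nab D (FB a (fun l => AD (ρ l))) (unc M) = unc (Tm D (FB a ρ) M) := by
  ext s
  rw [AD_FBg]
  simp only [nab, AD_mulVec]
  rfl

theorem nab_unc_iterg {D : Der (KX C)} {n : ℕ} (a : Fin n → C)
    (ρ : Fin n → Matrix (Fin n) (Fin n) C) (k : ℕ) (M : Matrix (Fin n) (Fin n) (KX C)) :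
    (nab D (FB a (fun l => AD (ρ l))))^[k] (unc M) = unc ((Tm D (FB a ρ))^[k] M) := by
  induction k generalizing M with
  | zero => rfl
  | succ k ih => rw [Function.iterate_succ_apply, Function.iterate_succ_apply, nab_uncg, ih]

theorem FB_dual {n : ℕ} (a : Fin n → C) (κ : C) : FB a (NKd κ) = -(FB a (NK κ))ᵀ := by
  ext i j
  simp only [FB, NKd, Matrix.of_apply, Matrix.neg_apply, Matrix.transpose_apply, map_neg, mul_neg,
    Finset.sum_neg_distrib]

/-- residues of matrices commuting with the `p`-curvature -/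
theorem mat_resK (H : Hyps) {p : ℕ} [Fact p.Prime] [CharP C p]
    {D : Der (KX C)} (hD : IsDer D) {n : ℕ} {a : Fin n → C}
    (ha : Function.Injective a) (hp : 3 ≤ p) {κ : C} (x : Matrix (Fin n) (Fin n) C[X])
    (hx : (Tm D (FB a (NK κ)))^[p] (x.map (ι C)) = 0) (l : Fin n) :
    AD (NK κ l) *ᵥ (fun s : Fin n × Fin n => (x s.1 s.2).eval (a l)) = 0 := by
  refine res_zero H.res hD ha (fun l => AD (NK κ l)) (fun l => AD_cube _ (NK_mul κ l)) hp
    (fun s : Fin n × Fin n => x s.1 s.2) ?_ l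
  have h := nab_unc_iterg (D := D) a (NK κ) p (x.map (ι C))
  rw [hx] at h
  exact h

theorem sum_ADK {n : ℕ} (κ : C) (Z : Matrix (Fin n) (Fin n) C) (i j : Fin n) :
    ∑ l, (AD (NK κ l) *ᵥ unc Z) (i, j) = κ * (∑ k, Z k j - ∑ k, Z i k) := by
  have h1 : ∀ l, (AD (NK κ l) *ᵥ unc Z) (i, j) =
      (NK κ l *ᵥ fun k => Z k j) i - (Z * NK κ l) i j := by
    intro l
    rw [AD_mulVec]
    rfl
  rw [Finset.sum_congr rfl fun l _ => h1 l, Finset.sum_sub_distrib, sum_NK]
  have h2 : ∀ l, (Z * NK κ l) i j = if l = j then κ * (∑ k, Z i k - Z i j) else 0 := by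
    intro l
    simp only [Matrix.mul_apply, NK, Matrix.of_apply]
    by_cases h : l = j
    · subst h
      simp only [true_and, if_true, mul_ite, mul_zero]
      rw [← Finset.sum_filter, Finset.filter_ne', ← Finset.sum_mul, mul_comm]
      congr 1
      rw [eq_sub_iff_add_eq, Finset.sum_erase_add _ _ (Finset.mem_univ l)]
    · rw [if_neg h]
      refine Finset.sum_eq_zero fun k _ => ?_
      rw [if_neg (fun h' => h h'.1.symm), mul_zero]
  rw [Finset.sum_congr rfl fun l _ => h2 l, Finset.sum_ite_eq' Finset.univ j,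
    if_pos (Finset.mem_univ j)]
  ring

/-- Degree zero. -/
theorem mat_zeroK (H : Hyps) {p : ℕ} [Fact p.Prime] [CharP C p]
    {D : Der (KX C)} (hD : IsDer D) {n : ℕ} {a : Fin n → C}
    (ha : Function.Injective a) (hp : 3 ≤ p) {κ : C} (x : Matrix (Fin n) (Fin n) C[X])
    (hx : (Tm D (FB a (NK κ)))^[p] (x.map (ι C)) = 0)
    (hd : ∀ i j, (x i j).natDegree ≤ 0) : Tm D (FB a (NK κ)) (x.map (ι C)) = 0 := by
  have h := nab_poly_zero hD (a := a) (fun l => AD (NK κ l))
    (fun s : Fin n × Fin n => x s.1 s.2) (fun l => mat_resK H hD ha hp x hx l)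
    (fun s => hd s.1 s.2)
  have h2 := nab_uncg (D := D) a (NK κ) (x.map (ι C))
  ext i j
  have h3 := congrFun h2 (i, j)
  have h4 := congrFun h (i, j)
  exact h3.symm.trans h4

/-- Positive degree. -/
theorem mat_succK (H : Hyps) {p : ℕ} [Fact p.Prime] [CharP C p]
    {D : Der (KX C)} (hD : IsDer D) {n : ℕ} {a : Fin n → C}
    (ha : Function.Injective a) (hp : 3 ≤ p) {κ : C} (x : Matrix (Fin n) (Fin n) C[X])
    (hx : (Tm D (FB a (NK κ)))^[p] (x.map (ι C)) = 0) {m : ℕ}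
    (hd : ∀ i j, (x i j).natDegree ≤ m + 1) :
    ∃ w : Matrix (Fin n) (Fin n) C[X], Tm D (FB a (NK κ)) (x.map (ι C)) = w.map (ι C) ∧
      (∀ i j, (w i j).natDegree ≤ m) ∧
      ∀ i j, (w i j).coeff m = ((m : C) + 1) * (x i j).coeff (m + 1) +
        κ * (∑ k, (x k j).coeff (m + 1) - ∑ k, (x i k).coeff (m + 1)) := by
  obtain ⟨w, h1, h2, h3⟩ := nab_poly hD (a := a) (fun l => AD (NK κ l))
    (fun s : Fin n × Fin n => x s.1 s.2) (fun l => mat_resK H hD ha hp x hx l)
    (m := m) (fun s => hd s.1 s.2)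
  refine ⟨Matrix.of fun i j => w (i, j), ?_, fun i j => h2 (i, j), fun i j => ?_⟩
  · have h4 := nab_uncg (D := D) a (NK κ) (x.map (ι C))
    ext i j
    exact (congrFun h4 (i, j)).symm.trans (congrFun h1 (i, j))
  · have h5 := h3 (i, j)
    rw [Matrix.of_apply, h5]
    congr 1
    exact sum_ADK κ (Matrix.of fun i j => (x i j).coeff (m + 1)) i j

/-- A horizontal matrix of degree `m + 1` has degree at most `m` if `m + 1 ≠ κ n`. -/
theorem hor_dropK (H : Hyps) {p : ℕ} [Fact p.Prime] [CharP C p]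
    {D : Der (KX C)} (hD : IsDer D) {n : ℕ} {a : Fin n → C}
    (ha : Function.Injective a) (hp3 : 3 ≤ p) {κ : C} (y : Matrix (Fin n) (Fin n) C[X])
    (hy : Tm D (FB a (NK κ)) (y.map (ι C)) = 0) {m : ℕ}
    (hd : ∀ i j, (y i j).natDegree ≤ m + 1) (h1 : ((m + 1 : ℕ) : C) ≠ 0)
    (h2 : ((m + 1 : ℕ) : C) + n * κ ≠ 0) (h3 : ((m + 1 : ℕ) : C) ≠ n * κ) :
    ∀ i j, (y i j).natDegree ≤ m := by
  have hyp : (Tm D (FB a (NK κ)))^[p] (y.map (ι C)) = 0 := by
    obtain ⟨q, rfl⟩ : ∃ q, p = q + 1 := ⟨p - 1, by omega⟩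
    rw [Function.iterate_succ_apply, hy, Tm_iter_zero]
  obtain ⟨w, hw1, -, hw3⟩ := mat_succK H hD ha hp3 y hyp hd
  rw [hy] at hw1
  have hw : w = 0 := map_eq_zero' hw1.symm
  set Z : Fin n → Fin n → C := fun i j => (y i j).coeff (m + 1) with hZ
  have hz : ∀ i j, ((m : C) + 1) * Z i j + κ * (∑ k, Z k j - ∑ k, Z i k) = 0 := by
    intro i j
    have h4 := hw3 i j
    rw [hw] at h4
    simp only [Matrix.zero_apply, coeff_zero] at h4
    exact h4.symm
  set τ : C := ∑ i, ∑ k, Z i k with hτ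
  have hcol : ∀ j, (((m : C) + 1) + n * κ) * ∑ k, Z k j = κ * τ := by
    intro j
    have h6 : ∑ i, (((m : C) + 1) * Z i j + κ * (∑ k, Z k j - ∑ k, Z i k)) = 0 :=
      Finset.sum_eq_zero fun i _ => hz i j
    rw [Finset.sum_add_distrib, ← Finset.mul_sum, ← Finset.mul_sum, Finset.sum_sub_distrib,
      Finset.sum_const, Finset.card_univ, Fintype.card_fin, nsmul_eq_mul] at h6
    linear_combination h6
  have hτ' : ∑ j, ∑ k, Z k j = τ := by rw [hτ, Finset.sum_comm]
  have hτ0 : τ = 0 := by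
    have h7 : ∑ j, (((m : C) + 1) + n * κ) * ∑ k, Z k j = ∑ j : Fin n, κ * τ :=
      Finset.sum_congr rfl fun j _ => hcol j
    rw [← Finset.mul_sum, hτ', Finset.sum_const, Finset.card_univ, Fintype.card_fin,
      nsmul_eq_mul] at h7
    have h8 : ((m + 1 : ℕ) : C) * τ = 0 := by push_cast; linear_combination h7
    rcases mul_eq_zero.1 h8 with h | h
    · exact absurd h h1
    · exact h
  have hcol0 : ∀ j, ∑ k, Z k j = 0 := by
    intro j
    have h8 := hcol j
    rw [hτ0, mul_zero] at h8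
    rcases mul_eq_zero.1 h8 with h | h
    · exfalso
      apply h2
      push_cast
      exact h
    · exact h
  have hrow : ∀ i, ∑ k, Z i k = 0 := by
    intro i
    have h6 : ∑ j, (((m : C) + 1) * Z i j + κ * (∑ k, Z k j - ∑ k, Z i k)) = 0 :=
      Finset.sum_eq_zero fun j _ => hz i j
    rw [Finset.sum_add_distrib, ← Finset.mul_sum, ← Finset.mul_sum, Finset.sum_sub_distrib, hτ',
      hτ0, Finset.sum_const, Finset.card_univ, Fintype.card_fin, nsmul_eq_mul] at h6
    have h8 : (((m + 1 : ℕ) : C) - n * κ) * ∑ k, Z i k = 0 := by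
      push_cast
      linear_combination h6
    rcases mul_eq_zero.1 h8 with h | h
    · exact absurd (sub_eq_zero.1 h) h3
    · exact h
  have hZ0 : ∀ i j, Z i j = 0 := by
    intro i j
    have h9 := hz i j
    rw [hcol0, hrow, sub_zero, mul_zero, add_zero] at h9
    rcases mul_eq_zero.1 h9 with h | h
    · exfalso
      apply h1
      push_cast
      exact h
    · exact h
  intro i j
  exact deg_drop (v := fun j => y i j) (fun j => hd i j) (fun j => hZ0 i j) j

theorem hor_degK (H : Hyps) {p : ℕ} [Fact p.Prime] [CharP C p]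
    {D : Der (KX C)} (hD : IsDer D) {n : ℕ} {a : Fin n → C}
    (ha : Function.Injective a) (hp3 : 3 ≤ p) {κ : C} {g K : ℕ}
    (h1 : ∀ k : ℕ, 1 ≤ k → k ≤ K → (k : C) ≠ 0)
    (h2 : ∀ k : ℕ, 1 ≤ k → k ≤ K → (k : C) + n * κ ≠ 0)
    (h3 : ∀ k : ℕ, g < k → k ≤ K → (k : C) ≠ n * κ) (y : Matrix (Fin n) (Fin n) C[X])
    (hy : Tm D (FB a (NK κ)) (y.map (ι C)) = 0) (m : ℕ) (hmK : m ≤ K)
    (hd : ∀ i j, (y i j).natDegree ≤ m) : ∀ i j, (y i j).natDegree ≤ g := by
  rcases le_or_gt m g with h | h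
  · exact fun i j => (hd i j).trans h
  · obtain ⟨k, rfl⟩ : ∃ k, m = g + k := ⟨m - g, by omega⟩
    clear h
    induction k with
    | zero => exact hd
    | succ k ih =>
      exact ih (by omega) (hor_dropK H hD ha hp3 y hy (m := g + k) hd
        (h1 _ (by omega) (by omega)) (h2 _ (by omega) (by omega)) (h3 _ (by omega) (by omega)))

theorem hor_powK (H : Hyps) {p : ℕ} [Fact p.Prime] [CharP C p]
    {D : Der (KX C)} (hD : IsDer D) {n : ℕ} {a : Fin n → C}
    (ha : Function.Injective a) (hp3 : 3 ≤ p) {κ : C} {g K : ℕ}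
    (h1 : ∀ k : ℕ, 1 ≤ k → k ≤ K → (k : C) ≠ 0)
    (h2 : ∀ k : ℕ, 1 ≤ k → k ≤ K → (k : C) + n * κ ≠ 0)
    (h3 : ∀ k : ℕ, g < k → k ≤ K → (k : C) ≠ n * κ) (hgK : 2 * g ≤ K)
    (y : Matrix (Fin n) (Fin n) C[X])
    (hy : Tm D (FB a (NK κ)) (y.map (ι C)) = 0)
    (hd : ∀ i j, (y i j).natDegree ≤ g) (k : ℕ) :
    Tm D (FB a (NK κ)) ((y ^ k).map (ι C)) = 0 ∧ ∀ i j, ((y ^ k) i j).natDegree ≤ g := by
  induction k with
  | zero =>
    constructor
    · rw [pow_zero, Matrix.map_one _ (map_zero _) (map_one _), Tm_one]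
    · intro i j
      rw [pow_zero, Matrix.one_apply]
      split_ifs <;> simp
  | succ k ih =>
    have h4 : Tm D (FB a (NK κ)) ((y ^ (k + 1)).map (ι C)) = 0 := by
      rw [pow_succ, Matrix.map_mul, Tm_mul, ih.1, hy]
      simp
    refine ⟨h4, hor_degK H hD ha hp3 h1 h2 h3 _ h4 (2 * g) hgK (fun i j => ?_)⟩
    rw [pow_succ, Matrix.mul_apply]
    refine natDegree_sum_le_of_forall_le _ _ fun l _ => ?_
    refine natDegree_mul_le.trans ?_
    have h2 := ih.2 i l
    have h3 := hd l j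
    omega

/-- The numerical hypotheses: `κ ≠ 0`, `n ≥ 2` and the small integers `k ≤ K` are different from
`0, ± κ, (n - 1) κ, - (n - 1) κ, - n κ`, and from `n κ` if `k > g`. -/
structure Num (C : Type) [Field C] (n : ℕ) (κ : C) (g K : ℕ) : Prop where
  n2 : 2 ≤ n
  k0 : κ ≠ 0
  n1 : (n : C) - 1 ≠ 0
  gK : 2 * g ≤ K
  c0 : ∀ k : ℕ, 1 ≤ k → k ≤ K → (k : C) ≠ 0
  c1 : ∀ k : ℕ, 1 ≤ k → k ≤ K → (k : C) + n * κ ≠ 0
  c2 : ∀ k : ℕ, g < k → k ≤ K → (k : C) ≠ n * κ
  c3 : ∀ k : ℕ, 1 ≤ k → k ≤ K → (k : C) + κ ≠ 0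
  c4 : ∀ k : ℕ, 1 ≤ k → k ≤ K → (k : C) ≠ ((n : C) - 1) * κ

/-- Horizontal matrices of small degree are scalar. -/
theorem hor_scalarK (H : Hyps) {p : ℕ} [Fact p.Prime] [CharP C p]
    {D : Der (KX C)} (hD : IsDer D) {n : ℕ} {a : Fin n → C}
    (ha : Function.Injective a) (hp3 : 3 ≤ p) {κ : C} {g K : ℕ} (hN : Num C n κ g K)
    (hRank : ∃ z l : Fin n → KX C, pcv D (FB a (NK κ)) p = Matrix.vecMulVec z l)
    (y : Matrix (Fin n) (Fin n) C[X])
    (hy : Tm D (FB a (NK κ)) (y.map (ι C)) = 0) (m : ℕ) (hmK : m ≤ K)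
    (hd : ∀ i j, (y i j).natDegree ≤ m) :
    ∃ c : C, y = Matrix.diagonal fun _ => Polynomial.C c := by
  have hd' := hor_degK H hD ha hp3 hN.c0 hN.c1 hN.c2 y hy m hmK hd
  obtain ⟨P, hP0, hP⟩ := exists_rel y g
    (fun k => (hor_powK H hD ha hp3 hN.c0 hN.c1 hN.c2 hN.gK y hy hd' k).2)
  obtain ⟨z, l, hzl⟩ := hRank
  have h0n : 0 < n := by have := hN.n2; omega
  -- the curvature is not zero
  have hψ : pcv D (FB a (NK κ)) p ≠ 0 := by
    intro h0
    have h1 := liK H.pcv H.res H.frac hD ha hN.n2 hp3 hN.k0 0 (fun k hk hk' => by omega)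
      (fun k hk hk' => by omega) (Pi.single ⟨0, h0n⟩ 1)
      (fun i => by
        by_cases hi : i = ⟨0, h0n⟩
        · subst hi; simp
        · rw [Pi.single_eq_of_ne hi]; simp) (by rw [h0, Matrix.zero_mulVec])
    have h2 := congrFun h1 ⟨0, h0n⟩
    simp at h2
  have hz : z ≠ 0 := by
    rintro rfl
    apply hψ
    rw [hzl]
    simp
  have hl : l ≠ 0 := by
    rintro rfl
    apply hψ
    rw [hzl]
    simp
  -- commutation
  have hcomm : y.map (ι C) * pcv D (FB a (NK κ)) p = pcv D (FB a (NK κ)) p * y.map (ι C) := by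
    have h1 := Tm_iter H.pcvT H.pcvD H.frac (p := p) hD (FB a (NK κ)) (y.map (ι C))
    have h2 : (Tm D (FB a (NK κ)))^[p] (y.map (ι C)) = 0 := by
      obtain ⟨q, rfl⟩ : ∃ q, p = q + 1 := ⟨p - 1, by omega⟩
      rw [Function.iterate_succ_apply, hy, Tm_iter_zero]
    rw [h2] at h1
    exact (sub_eq_zero.1 h1.symm).symm
  obtain ⟨j0, hj0⟩ := Function.ne_iff.1 hl
  simp only [Pi.zero_apply] at hj0
  have heig : y.map (ι C) *ᵥ z = ((l ᵥ* y.map (ι C)) j0 / l j0) • z := by
    rw [hzl, Matrix.mul_vecMulVec, Matrix.vecMulVec_mul] at hcomm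
    ext i
    have h3 := congrFun (congrFun hcomm i) j0
    simp only [Matrix.vecMulVec_apply] at h3
    rw [Pi.smul_apply, smul_eq_mul, div_mul_eq_mul_div, eq_div_iff hj0, h3, mul_comm]
  obtain ⟨c, hc⟩ := eig_const hP0 hP hz heig
  rw [hc] at heig
  refine ⟨c, ?_⟩
  -- the difference
  set r : Matrix (Fin n) (Fin n) C[X] := y - Matrix.diagonal fun _ => Polynomial.C c with hr
  have hrz : r.map (ι C) *ᵥ z = 0 := by
    have h1 : r.map (ι C) = y.map (ι C) - Matrix.diagonal fun _ => ι C (Polynomial.C c) := by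
      rw [hr]
      ext i j
      simp only [Matrix.map_apply, Matrix.sub_apply, map_sub, Matrix.diagonal_apply]
      split_ifs <;> simp
    rw [h1, Matrix.sub_mulVec, heig, sub_eq_zero]
    ext i
    rw [Matrix.mulVec_diagonal, Pi.smul_apply, smul_eq_mul]
  have hrψ : r.map (ι C) * pcv D (FB a (NK κ)) p = 0 := by
    rw [hzl, Matrix.mul_vecMulVec, hrz]
    simp
  have hrdeg : ∀ i j, (r i j).natDegree ≤ g := by
    intro i j
    rw [hr, Matrix.sub_apply]
    refine (natDegree_sub_le _ _).trans (max_le (hd' i j) ?_)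
    rw [Matrix.diagonal_apply]
    split_ifs <;> simp
  have hdual : pcv D (FB a (NKd κ)) p = -(pcv D (FB a (NK κ)) p)ᵀ := by
    have hdp := fun c => dp (C := C) H.frac (p := p) hD c
    rw [FB_dual]
    exact H.pcvD (KX C) p D hdp (Fin n) (FB a (NK κ))
  have h15 : ∀ i, r i = 0 := by
    intro i
    refine liKd H.pcv H.res H.frac hD ha hp3 hN.k0 g hN.n1
      (fun k hk hk' => hN.c3 k hk (by have := hN.gK; omega))
      (fun k hk hk' => hN.c4 k hk (by have := hN.gK; omega)) (r i) (hrdeg i) ?_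
    rw [hdual, Matrix.neg_mulVec, neg_eq_zero, Matrix.mulVec_transpose]
    ext j
    have h16 := congrFun (congrFun hrψ i) j
    exact h16
  have h17 : r = 0 := by
    ext1 i j
    exact congrFun (h15 i) j
  exact sub_eq_zero.1 h17

theorem exists_primK (c : C[X]) (m : ℕ) (hc : c.natDegree ≤ m)
    (h1 : ∀ k : ℕ, 1 ≤ k → k ≤ m + 1 → (k : C) ≠ 0) :
    ∃ b : C[X], derivative b = c ∧ b.natDegree ≤ m + 1 := by
  refine ⟨∑ k ∈ range (m + 1), monomial (k + 1) (c.coeff k / ((k : C) + 1)), ?_, ?_⟩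
  · rw [derivative_sum]
    conv_rhs => rw [as_sum_range' c (m + 1) (by omega)]
    refine Finset.sum_congr rfl fun k hk => ?_
    have h1 : ((k : C) + 1) ≠ 0 := by
      have := h1 (k + 1) (by omega) (by have := Finset.mem_range.1 hk; omega)
      push_cast at this
      exact this
    rw [derivative_monomial, Nat.add_sub_cancel]
    push_cast
    rw [div_mul_cancel₀ _ h1]
  · refine natDegree_sum_le_of_forall_le _ _ fun k hk => ?_
    have := Finset.mem_range.1 hk
    exact (natDegree_monomial_le _).trans (by omega)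

/-- The commutant of the `p`-curvature in small degree. -/
theorem commK (H : Hyps) {p : ℕ} [Fact p.Prime] [CharP C p]
    {D : Der (KX C)} (hD : IsDer D) {n : ℕ} {a : Fin n → C}
    (ha : Function.Injective a) (hp3 : 3 ≤ p) {κ : C} {g K : ℕ} (hN : Num C n κ g K)
    (hRank : ∃ z l : Fin n → KX C, pcv D (FB a (NK κ)) p = Matrix.vecMulVec z l)
    (m : ℕ) (hmK : m ≤ K) (x : Matrix (Fin n) (Fin n) C[X])
    (hdeg : ∀ i j, (x i j).natDegree ≤ m)
    (hx : x.map (ι C) * pcv D (FB a (NK κ)) p = pcv D (FB a (NK κ)) p * x.map (ι C)) :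
    ∃ c : C[X], x = Matrix.diagonal fun _ => c := by
  have h0n : 0 < n := by have := hN.n2; omega
  induction m generalizing x with
  | zero =>
    have h1 : (Tm D (FB a (NK κ)))^[p] (x.map (ι C)) = 0 := by
      rw [Tm_iter H.pcvT H.pcvD H.frac (p := p) hD, hx, sub_self]
    have h2 := mat_zeroK H hD ha hp3 x h1 hdeg
    obtain ⟨c, hc⟩ := hor_scalarK H hD ha hp3 hN hRank x h2 0 (by omega) hdeg
    exact ⟨_, hc⟩
  | succ m ih =>
    have h1 : (Tm D (FB a (NK κ)))^[p] (x.map (ι C)) = 0 := by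
      rw [Tm_iter H.pcvT H.pcvD H.frac (p := p) hD, hx, sub_self]
    obtain ⟨w, hw1, hw2, -⟩ := mat_succK H hD ha hp3 x h1 hdeg
    have hw3 : (Tm D (FB a (NK κ)))^[p] (w.map (ι C)) = 0 := by
      rw [← hw1, ← Function.iterate_succ_apply, Function.iterate_succ_apply', h1, Tm_zero]
    rw [Tm_iter H.pcvT H.pcvD H.frac (p := p) hD, sub_eq_zero] at hw3
    obtain ⟨c, hc⟩ := ih (by omega) w hw2 hw3.symm
    have hcdeg : c.natDegree ≤ m := by
      have h3 := hw2 ⟨0, h0n⟩ ⟨0, h0n⟩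
      rw [hc, Matrix.diagonal_apply_eq] at h3
      exact h3
    obtain ⟨b, hb1, hb2⟩ := exists_primK c m hcdeg (fun k hk hk' => hN.c0 k hk (by omega))
    set y : Matrix (Fin n) (Fin n) C[X] := x - Matrix.diagonal fun _ => b with hydef
    have hy : Tm D (FB a (NK κ)) (y.map (ι C)) = 0 := by
      have h4 : y.map (ι C) = x.map (ι C) -
          (Matrix.diagonal fun _ => b : Matrix (Fin n) (Fin n) C[X]).map (ι C) := by
        rw [hydef]
        ext i j
        rw [Matrix.map_apply, Matrix.sub_apply, Matrix.sub_apply, map_sub]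
        rfl
      rw [h4, Tm_sub, Tm_diag hD, hb1, hw1, hc, sub_self]
    have hydeg : ∀ i j, (y i j).natDegree ≤ m + 1 := by
      intro i j
      rw [hydef, Matrix.sub_apply]
      refine (natDegree_sub_le _ _).trans (max_le (hdeg i j) ?_)
      rw [Matrix.diagonal_apply]
      split_ifs
      · exact hb2
      · simp
    obtain ⟨e, he⟩ := hor_scalarK H hD ha hp3 hN hRank y hy (m + 1) hmK hydeg
    refine ⟨b + Polynomial.C e, ?_⟩
    have h5 : x = y + Matrix.diagonal fun _ => b := by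
      rw [hydef, sub_add_cancel]
    rw [h5, he, Matrix.diagonal_add]
    congr 1
    ext1 i
    exact add_comm _ _

end Pool.Agent.Helper34.BK
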