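import Pool.Agent.Helper34.BK.Commk

/-!
# No invariant form
-/

set_option autoImplicit false

open Polynomial Matrix Finset
open Pool.Agent.Helper62.BM Pool.Agent.Helper34.BM

namespace Pool.Agent.Helper34.BK

variable {C : Type} [Field C]

/-- The connection `D M + B M + M Bᵀ` on matrices. -/
def Ts {F : Type} [Field F] {n : Type} [Fintype n] (D : F → F) (B M : Matrix n n F) :
    Matrix n n F :=
  Matrix.of fun i j => D (M i j) + (B * M + M * Bᵀ) i j

/-- The matrix of `M ↦ N M + M Nᵀ`. -/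
def SD {R : Type} [Ring R] {n : Type} [DecidableEq n] (N : Matrix n n R) :
    Matrix (n × n) (n × n) R :=
  Matrix.of fun s t => (if s.2 = t.2 then N s.1 t.1 else 0) + (if s.1 = t.1 then N s.2 t.2 else 0)

theorem SD_mulVec {R : Type} [CommRing R] {n : Type} [Fintype n] [DecidableEq n]
    (N M : Matrix n n R) : SD N *ᵥ unc M = unc (N * M + M * Nᵀ) := by
  ext s
  simp only [Matrix.mulVec, dotProduct, SD, Matrix.of_apply, unc, Matrix.add_apply,
    Matrix.mul_apply, Matrix.transpose_apply, add_mul, Finset.sum_add_distrib, ite_mul, zero_mul]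
  rw [Fintype.sum_prod_type, Fintype.sum_prod_type]
  congr 1
  · refine Finset.sum_congr rfl fun k _ => ?_
    simp
  · rw [Finset.sum_eq_single s.1]
    · simp [mul_comm]
    · intro b _ hb
      refine Finset.sum_eq_zero fun c _ => ?_
      rw [if_neg (fun h => hb h.symm)]
    · simp

theorem SD_cube {R : Type} [CommRing R] {n : Type} [Fintype n] [DecidableEq n]
    (N : Matrix n n R) (h : N * N = 0) : SD N ^ 3 = 0 := by
  have h' : Nᵀ * Nᵀ = 0 := by rw [← Matrix.transpose_mul, h, Matrix.transpose_zero]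
  apply (Matrix.toLin' (R := R)).injective
  rw [map_zero]
  apply LinearMap.ext
  intro v
  rw [Matrix.toLin'_apply, LinearMap.zero_apply]
  have hv : v = unc (Matrix.of fun i j => v (i, j)) := by
    ext s
    rfl
  rw [hv]
  generalize (Matrix.of fun i j => v (i, j)) = M
  rw [pow_succ, pow_two, ← Matrix.mulVec_mulVec, ← Matrix.mulVec_mulVec, SD_mulVec, SD_mulVec,
    SD_mulVec]
  generalize hN : Nᵀ = Q at *
  have h1 : N * (N * (N * M + M * Q) + (N * M + M * Q) * Q) +
      (N * (N * M + M * Q) + (N * M + M * Q) * Q) * Q =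
      (N * N) * N * M + 3 • ((N * N) * M * Q) + 3 • (N * M * (Q * Q)) + M * (Q * Q) * Q := by
    noncomm_ring
  rw [h1, h, h']
  simp
  rfl

theorem SD_FBg {n : ℕ} (a : Fin n → C) (ρ : Fin n → Matrix (Fin n) (Fin n) C) :
    FB a (fun l => SD (ρ l)) = SD (FB a ρ) := by
  ext s t
  simp only [FB, SD, Matrix.of_apply, map_add, mul_add, Finset.sum_add_distrib]
  congr 1
  · split_ifs <;> simp
  · split_ifs <;> simp

theorem nab_uncs {D : Der (KX C)} {n : ℕ} (a : Fin n → C) (ρ : Fin n → Matrix (Fin n) (Fin n) C)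
    (M : Matrix (Fin n) (Fin n) (KX C)) :
    nab D (FB a (fun l => SD (ρ l))) (unc M) = unc (Ts D (FB a ρ) M) := by
  ext s
  rw [SD_FBg]
  simp only [nab, SD_mulVec]
  rfl

theorem nab_unc_iters {D : Der (KX C)} {n : ℕ} (a : Fin n → C)
    (ρ : Fin n → Matrix (Fin n) (Fin n) C) (k : ℕ) (M : Matrix (Fin n) (Fin n) (KX C)) :
    (nab D (FB a (fun l => SD (ρ l))))^[k] (unc M) = unc ((Ts D (FB a ρ))^[k] M) := by
  induction k generalizing M with
  | zero => rfl
  | succ k ih => rw [Function.iterate_succ_apply, Function.iterate_succ_apply, nab_uncs, ih]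

theorem Ts_iter (hT : S_PcvT) (hFrac : S_Frac) {p : ℕ} [Fact p.Prime] [CharP C p]
    {D : Der (KX C)} (hD : IsDer D) {n : Type} [Fintype n] [DecidableEq n]
    (B M : Matrix n n (KX C)) : (Ts D B)^[p] M = pcv D B p * M + M * (pcv D B p)ᵀ := by
  have hdp := fun c => dp (C := C) hFrac (p := p) hD c
  exact hT (KX C) p D hdp n n B B M

theorem Ts_zero (D : Der (KX C)) {n : Type} [Fintype n]
    (B : Matrix n n (KX C)) : Ts D B 0 = 0 := by
  ext i j
  simp [Ts]

theorem sum_SDK {n : ℕ} (κ : C) (Z : Matrix (Fin n) (Fin n) C) (i j : Fin n) :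
    ∑ l, (SD (NK κ l) *ᵥ unc Z) (i, j) = κ * (∑ k, Z k j + ∑ k, Z i k - 2 * Z i j) := by
  have h1 : ∀ l, (SD (NK κ l) *ᵥ unc Z) (i, j) =
      (NK κ l *ᵥ fun k => Z k j) i + (NK κ l *ᵥ fun k => Z i k) j := by
    intro l
    rw [SD_mulVec]
    simp only [unc, Matrix.add_apply, Matrix.mul_apply, Matrix.transpose_apply, Matrix.mulVec,
      dotProduct]
    congr 1
    exact Finset.sum_congr rfl fun k _ => mul_comm _ _
  rw [Finset.sum_congr rfl fun l _ => h1 l, Finset.sum_add_distrib, sum_NK, sum_NK]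
  ring

/-- The numerical hypotheses. -/
structure NumF (C : Type) [Field C] (n : ℕ) (κ : C) (d : ℕ) : Prop where
  c1 : ∀ k : ℕ, k ≤ d → (k : C) + (2 * n - 2) * κ ≠ 0
  c2 : ∀ k : ℕ, k ≤ d → (k : C) + (n - 2) * κ ≠ 0
  c3 : ∀ k : ℕ, k ≤ d → (k : C) ≠ 2 * κ

theorem lead_zero {n d k : ℕ} {κ : C} (hN : NumF C n κ d) (hk : k ≤ d) {Z : Fin n → Fin n → C}
    (hz : ∀ i j, (k : C) * Z i j + κ * (∑ u, Z u j + ∑ u, Z i u - 2 * Z i j) = 0) (i j : Fin n) :
    Z i j = 0 := by
  set τ : C := ∑ i, ∑ u, Z i u with hτ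
  have hτ' : ∑ j, ∑ u, Z u j = τ := by rw [hτ, Finset.sum_comm]
  have hcol : ∀ j, ((k : C) + (n - 2) * κ) * ∑ u, Z u j + κ * τ = 0 := by
    intro j
    have h6 : ∑ i, ((k : C) * Z i j + κ * (∑ u, Z u j + ∑ u, Z i u - 2 * Z i j)) = 0 :=
      Finset.sum_eq_zero fun i _ => hz i j
    rw [Finset.sum_add_distrib, ← Finset.mul_sum, ← Finset.mul_sum, Finset.sum_sub_distrib,
      Finset.sum_add_distrib, Finset.sum_const, Finset.card_univ, Fintype.card_fin,
      nsmul_eq_mul, ← Finset.mul_sum] at h6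
    linear_combination h6
  have hrow : ∀ i, ((k : C) + (n - 2) * κ) * ∑ u, Z i u + κ * τ = 0 := by
    intro i
    have h6 : ∑ j, ((k : C) * Z i j + κ * (∑ u, Z u j + ∑ u, Z i u - 2 * Z i j)) = 0 :=
      Finset.sum_eq_zero fun j _ => hz i j
    rw [Finset.sum_add_distrib, ← Finset.mul_sum, ← Finset.mul_sum, Finset.sum_sub_distrib,
      Finset.sum_add_distrib, Finset.sum_const, Finset.card_univ, Fintype.card_fin,
      nsmul_eq_mul, ← Finset.mul_sum, hτ'] at h6
    linear_combination h6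
  have hτ0 : τ = 0 := by
    have h7 : ∑ j, (((k : C) + (n - 2) * κ) * ∑ u, Z u j + κ * τ) = 0 :=
      Finset.sum_eq_zero fun j _ => hcol j
    rw [Finset.sum_add_distrib, ← Finset.mul_sum, hτ', Finset.sum_const, Finset.card_univ,
      Fintype.card_fin, nsmul_eq_mul] at h7
    have h8 : ((k : C) + (2 * n - 2) * κ) * τ = 0 := by linear_combination h7
    rcases mul_eq_zero.1 h8 with h | h
    · exact absurd h (hN.c1 k hk)
    · exact h
  have hcol0 : ∀ j, ∑ u, Z u j = 0 := by
    intro j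
    have h8 := hcol j
    rw [hτ0, mul_zero, add_zero] at h8
    rcases mul_eq_zero.1 h8 with h | h
    · exact absurd h (hN.c2 k hk)
    · exact h
  have hrow0 : ∀ i, ∑ u, Z i u = 0 := by
    intro i
    have h8 := hrow i
    rw [hτ0, mul_zero, add_zero] at h8
    rcases mul_eq_zero.1 h8 with h | h
    · exact absurd h (hN.c2 k hk)
    · exact h
  have h9 := hz i j
  rw [hcol0, hrow0] at h9
  have h10 : ((k : C) - 2 * κ) * Z i j = 0 := by linear_combination h9
  rcases mul_eq_zero.1 h10 with h | h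
  · exact absurd (sub_eq_zero.1 h) (hN.c3 k hk)
  · exact h

/-- There is no invariant form of small degree. -/
theorem noFormK (H : Hyps) {p : ℕ} [Fact p.Prime] [CharP C p]
    {D : Der (KX C)} (hD : IsDer D) {n : ℕ} {a : Fin n → C}
    (ha : Function.Injective a) (hp3 : 3 ≤ p) {κ : C} {d : ℕ} (hN : NumF C n κ d) (m : ℕ)
    (hm : m ≤ d) (x : Matrix (Fin n) (Fin n) C[X]) (hdeg : ∀ i j, (x i j).natDegree ≤ m)
    (hx : pcv D (FB a (NK κ)) p * x.map (ι C) + x.map (ι C) * (pcv D (FB a (NK κ)) p)ᵀ = 0) :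
    x = 0 := by
  have hres : ∀ x : Matrix (Fin n) (Fin n) C[X],
      (Ts D (FB a (NK κ)))^[p] (x.map (ι C)) = 0 → ∀ l,
      SD (NK κ l) *ᵥ (fun s : Fin n × Fin n => (x s.1 s.2).eval (a l)) = 0 := by
    intro x hx l
    refine res_zero H.res hD ha (fun l => SD (NK κ l)) (fun l => SD_cube _ (NK_mul κ l)) hp3
      (fun s : Fin n × Fin n => x s.1 s.2) ?_ l
    have h := nab_unc_iters (D := D) a (NK κ) p (x.map (ι C))
    rw [hx] at h
    exact h
  induction m generalizing x with
  | zero =>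
    have h1 : (Ts D (FB a (NK κ)))^[p] (x.map (ι C)) = 0 := by
      rw [Ts_iter H.pcvT H.frac (p := p) hD, hx]
    have h2 := hres x h1
    have hev : ∀ l i j, (x i j).eval (a l) = (x i j).coeff 0 := by
      intro l i j
      conv_lhs => rw [eq_C_of_natDegree_le_zero (hdeg i j), eval_C]
    simp only [hev] at h2
    have h3 : ∀ i j, ((0 : ℕ) : C) * (x i j).coeff 0 + κ * (∑ u, (x u j).coeff 0 +
        ∑ u, (x i u).coeff 0 - 2 * (x i j).coeff 0) = 0 := by
      intro i j
      rw [Nat.cast_zero, zero_mul, zero_add]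
      have h7 := sum_SDK κ (Matrix.of fun i j => (x i j).coeff 0) i j
      refine h7.symm.trans ?_
      exact Finset.sum_eq_zero fun l _ => congrFun (h2 l) (i, j)
    ext1 i j
    have h4 := lead_zero hN (Nat.zero_le d) h3 i j
    rw [eq_C_of_natDegree_le_zero (hdeg i j), h4]
    simp
  | succ m ih =>
    have h1 : (Ts D (FB a (NK κ)))^[p] (x.map (ι C)) = 0 := by
      rw [Ts_iter H.pcvT H.frac (p := p) hD, hx]
    obtain ⟨w, hw1, hw2, hw3⟩ := nab_poly hD (a := a) (fun l => SD (NK κ l))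
      (fun s : Fin n × Fin n => x s.1 s.2) (hres x h1) (m := m) (fun s => hdeg s.1 s.2)
    set W : Matrix (Fin n) (Fin n) C[X] := Matrix.of fun i j => w (i, j) with hW
    have hTs : Ts D (FB a (NK κ)) (x.map (ι C)) = W.map (ι C) := by
      have h4 := nab_uncs (D := D) a (NK κ) (x.map (ι C))
      ext i j
      exact (congrFun h4 (i, j)).symm.trans (congrFun hw1 (i, j))
    have hW0 : W = 0 := by
      refine ih (by omega) W (fun i j => hw2 (i, j)) ?_
      rw [← Ts_iter H.pcvT H.frac (p := p) hD, ← hTs, ← Function.iterate_succ_apply,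
        Function.iterate_succ_apply', h1, Ts_zero]
    have h3 : ∀ i j, ((m + 1 : ℕ) : C) * (x i j).coeff (m + 1) + κ *
        (∑ u, (x u j).coeff (m + 1) + ∑ u, (x i u).coeff (m + 1) -
          2 * (x i j).coeff (m + 1)) = 0 := by
      intro i j
      have h5 := hw3 (i, j)
      have h6 : w (i, j) = 0 := congrFun (congrFun hW0 i) j
      rw [h6, coeff_zero] at h5
      have h7 := sum_SDK κ (Matrix.of fun i j => (x i j).coeff (m + 1)) i j
      have h8 : ∑ l, (SD (NK κ l) *ᵥ fun s : Fin n × Fin n => (x s.1 s.2).coeff (m + 1)) (i, j) =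
        ∑ l, (SD (NK κ l) *ᵥ unc (Matrix.of fun i j => (x i j).coeff (m + 1))) (i, j) := rfl
      rw [h8, h7] at h5
      push_cast
      exact h5.symm
    have h4 := lead_zero hN hm h3
    refine ih (by omega) x (fun i j => ?_) hx
    exact deg_drop (v := fun j => x i j) (fun j => hdeg i j) (fun j => h4 i j) j

end Pool.Agent.Helper34.BK
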