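import Pool.Agent.Helper62.BM.KStm
import Pool.Agent.Helper34.BK.NoForm

/-!
# Package KB
-/

set_option autoImplicit false

open Polynomial Matrix Finset
open Pool.Agent.Helper62.BM Pool.Agent.Helper34.BM

namespace Pool.Agent.Helper34.BK

variable {C : Type} [Field C]

theorem Bk_eq {n : ℕ} (a : Fin n → C) (s m : ℕ) :
    Bk ((s : KX C) / (m : KX C)) (tX C) (aX a) = FB a (NK ((s : C) / (m : C))) := by
  ext i j
  simp only [Bk, FB, NK, Matrix.of_apply]
  rw [Finset.sum_eq_single j]
  · by_cases h : i = j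
    · simp [h]
    · have h2 : ι C (Polynomial.C ((s : C) / (m : C))) = (s : KX C) / (m : KX C) := by
        have h3 : ∀ c : C, ι C (Polynomial.C c) = ((ι C).comp Polynomial.C) c := fun c => rfl
        rw [h3, map_div₀, map_natCast, map_natCast]
      rw [if_neg h, if_pos ⟨rfl, h⟩, h2, mul_comm]
  · intro l _ hl
    rw [if_neg (fun h => hl h.1.symm)]
    simp
  · simp

theorem int_ne {p : ℕ} [CharP C p] {z : ℤ} (hz : z ≠ 0) (h : |z| < p) : (z : C) ≠ 0 := by
  intro h0
  rw [CharP.intCast_eq_zero_iff C p] at h0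
  exact hz (Int.eq_zero_of_abs_lt_dvd h0 h)

theorem nat_ne {p : ℕ} [CharP C p] {z : ℕ} (hz : z ≠ 0) (h : z < p) : (z : C) ≠ 0 := by
  intro h0
  rw [CharP.cast_eq_zero_iff C p] at h0
  exact hz (Nat.eq_zero_of_dvd_of_lt h0 h)

theorem lin_ne {p : ℕ} [CharP C p] {m s A B : ℕ} (hm0 : (m : C) ≠ 0) (hp : A * m + B * s < p)
    {k c : ℤ} (hk : |k| ≤ A) (hc : |c| ≤ B) (hne : k * m + c * s ≠ 0) :
    (k : C) + (c : C) * ((s : C) / (m : C)) ≠ 0 := by
  intro h0
  have h1 : ((k * m + c * s : ℤ) : C) = 0 := by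
    push_cast
    field_simp at h0
    linear_combination h0
  refine int_ne (C := C) (p := p) hne ?_ h1
  calc |k * m + c * s| ≤ |k * m| + |c * s| := abs_add_le _ _
    _ = |k| * m + |c| * s := by rw [abs_mul, abs_mul, Nat.abs_cast, Nat.abs_cast]
    _ ≤ A * m + B * s := by
      have h2 : |k| * (m : ℤ) ≤ A * m := mul_le_mul_of_nonneg_right hk (by positivity)
      have h3 : |c| * (s : ℤ) ≤ B * s := mul_le_mul_of_nonneg_right hc (by positivity)
      linarith
    _ < p := by exact_mod_cast hp

theorem kLI (H : Hyps) : K_LI := by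
  intro n m s d hn hs hsm
  refine ⟨(d + 3) * m + (n + 3) * s + n + 3, ?_⟩
  intro C _ p _ _ hp D hD a ha v hdeg hv
  rw [Bk_eq] at hv
  have hm0 : (m : C) ≠ 0 := nat_ne (p := p) (by omega) (by nlinarith)
  have hs0 : (s : C) ≠ 0 := nat_ne (p := p) (by omega) (by nlinarith)
  have hp' : (d + 3) * m + (n + 3) * s < p := by omega
  refine liK H.pcv H.res H.frac hD ha hn (by omega) (div_ne_zero hs0 hm0) d ?_ ?_ v hdeg hv
  · intro k hk hkd h0
    refine lin_ne (C := C) (p := p) (k := k) (c := -1) hm0 hp' ?_ ?_ ?_ ?_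
    · rw [Nat.abs_cast]; push_cast; omega
    · rw [abs_neg, abs_one]; push_cast; omega
    · have : (k : ℤ) * m ≥ 1 * m := mul_le_mul_of_nonneg_right (by omega) (by positivity)
      omega
    · push_cast
      rw [← h0]
      ring
  · intro k hk hkd h0
    refine lin_ne (C := C) (p := p) (k := k) (c := (n : ℤ) - 1) hm0 hp' ?_ ?_ ?_ ?_
    · rw [Nat.abs_cast]; push_cast; omega
    · rw [abs_of_nonneg (by omega)]; push_cast; omega
    · have h1 : (k : ℤ) * m ≥ 1 * m := mul_le_mul_of_nonneg_right (by omega) (by positivity)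
      have h2 : 0 ≤ ((n : ℤ) - 1) * s := mul_nonneg (by omega) (by positivity)
      omega
    · push_cast
      exact h0

theorem kLID (H : Hyps) : K_LID := by
  intro n m s d hn hs hsm hdvd
  refine ⟨(d + 3) * m + (n + 3) * s + n + 3, ?_⟩
  intro C _ p _ _ hp D hD a ha v hdeg hv
  rw [Bk_eq] at hv
  have hm0 : (m : C) ≠ 0 := nat_ne (p := p) (by omega) (by nlinarith)
  have hs0 : (s : C) ≠ 0 := nat_ne (p := p) (by omega) (by nlinarith)
  have hp' : (d + 3) * m + (n + 3) * s < p := by omega
  have hn1 : (n : C) - 1 ≠ 0 := by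
    have h1 := nat_ne (C := C) (p := p) (z := n - 1) (by omega) (by omega)
    rw [Nat.cast_sub (by omega), Nat.cast_one] at h1
    exact h1
  have hdual : pcv D (FB a (NKd ((s : C) / (m : C)))) p =
      -(pcv D (FB a (NK ((s : C) / (m : C)))) p)ᵀ := by
    have hdp := fun c => dp (C := C) H.frac (p := p) hD c
    rw [FB_dual]
    exact H.pcvD (KX C) p D hdp (Fin n) (FB a (NK ((s : C) / (m : C))))
  refine liKd H.pcv H.res H.frac hD ha (by omega) (div_ne_zero hs0 hm0) d hn1 ?_ ?_ v hdeg ?_
  · intro k hk hkd h0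
    refine lin_ne (C := C) (p := p) (k := k) (c := 1) hm0 hp' ?_ ?_ ?_ ?_
    · rw [Nat.abs_cast]; push_cast; omega
    · rw [abs_one]; push_cast; omega
    · have : (k : ℤ) * m ≥ 1 * m := mul_le_mul_of_nonneg_right (by omega) (by positivity)
      omega
    · push_cast
      rw [one_mul]
      exact h0
  · intro k hk hkd h0
    refine lin_ne (C := C) (p := p) (k := k) (c := -((n : ℤ) - 1)) hm0 hp' ?_ ?_ ?_ ?_
    · rw [Nat.abs_cast]; push_cast; omega
    · rw [abs_neg, abs_of_nonneg (by omega)]; push_cast; omega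
    · intro h1
      apply hdvd
      have h2 : (((n - 1) * s : ℕ) : ℤ) = (m : ℤ) * k := by
        rw [Nat.cast_mul, Nat.cast_sub (by omega), Nat.cast_one]
        linarith
      have h3 : (n - 1) * s = m * k := by exact_mod_cast h2
      exact ⟨k, h3⟩
    · push_cast
      rw [h0]
      ring
  · rw [hdual, Matrix.neg_mulVec, neg_eq_zero, Matrix.mulVec_transpose]
    exact hv

theorem num_of {p : ℕ} [CharP C p] {n m s d : ℕ} (hn : 2 ≤ n) (hs : 0 < s) (hsm : s < m)
    (hdvd : ¬ m ∣ (n - 1) * s)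
    (hp : (d + 2 * n + 3) * m + (n + 3) * s + 2 * n + d + 3 < p) :
    Num C n ((s : C) / (m : C)) n (d + 2 * n) := by
  have hm0 : (m : C) ≠ 0 := nat_ne (p := p) (by omega) (by nlinarith)
  have hs0 : (s : C) ≠ 0 := nat_ne (p := p) (by omega) (by nlinarith)
  have hp' : (d + 2 * n + 3) * m + (n + 3) * s < p := by omega
  have hn1 : (n : C) - 1 ≠ 0 := by
    have h1 := nat_ne (C := C) (p := p) (z := n - 1) (by omega) (by omega)
    rw [Nat.cast_sub (by omega), Nat.cast_one] at h1
    exact h1
  refine ⟨hn, div_ne_zero hs0 hm0, hn1, by omega, ?_, ?_, ?_, ?_, ?_⟩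
  · intro k hk hkd
    exact nat_ne (p := p) (by omega) (by omega)
  · intro k hk hkd h0
    refine lin_ne (C := C) (p := p) (k := k) (c := n) hm0 hp' ?_ ?_ ?_ ?_
    · rw [Nat.abs_cast]; push_cast; omega
    · rw [Nat.abs_cast]; push_cast; omega
    · have h1 : (k : ℤ) * m ≥ 1 * m := mul_le_mul_of_nonneg_right (by omega) (by positivity)
      have h2 : 0 ≤ (n : ℤ) * s := by positivity
      omega
    · push_cast
      exact h0
  · intro k hk hkd h0
    refine lin_ne (C := C) (p := p) (k := k) (c := -n) hm0 hp' ?_ ?_ ?_ ?_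
    · rw [Nat.abs_cast]; push_cast; omega
    · rw [abs_neg, Nat.abs_cast]; push_cast; omega
    · have h1 : (n : ℤ) * m < (k : ℤ) * m := mul_lt_mul_of_pos_right (by omega) (by omega)
      have h2 : (n : ℤ) * s ≤ (n : ℤ) * m := mul_le_mul_of_nonneg_left (by omega) (by positivity)
      have h3 : -(n : ℤ) * s = -((n : ℤ) * s) := by ring
      rw [h3]
      omega
    · push_cast
      rw [h0]
      ring
  · intro k hk hkd h0
    refine lin_ne (C := C) (p := p) (k := k) (c := 1) hm0 hp' ?_ ?_ ?_ ?_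
    · rw [Nat.abs_cast]; push_cast; omega
    · rw [abs_one]; push_cast; omega
    · have : (k : ℤ) * m ≥ 1 * m := mul_le_mul_of_nonneg_right (by omega) (by positivity)
      omega
    · push_cast
      rw [one_mul]
      exact h0
  · intro k hk hkd h0
    refine lin_ne (C := C) (p := p) (k := k) (c := -((n : ℤ) - 1)) hm0 hp' ?_ ?_ ?_ ?_
    · rw [Nat.abs_cast]; push_cast; omega
    · rw [abs_neg, abs_of_nonneg (by omega)]; push_cast; omega
    · intro h1
      apply hdvd
      have h2 : (((n - 1) * s : ℕ) : ℤ) = (m : ℤ) * k := by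
        rw [Nat.cast_mul, Nat.cast_sub (by omega), Nat.cast_one]
        linarith
      have h3 : (n - 1) * s = m * k := by exact_mod_cast h2
      exact ⟨k, h3⟩
    · push_cast
      rw [h0]
      ring

theorem kComm (H : Hyps) (hR : K_Rank) : K_Comm := by
  intro n m s d hn hs hsm hdvd
  refine ⟨(d + 2 * n + 3) * m + (n + 3) * s + 2 * n + d + 3, ?_⟩
  intro C _ p _ _ hp D hD a ha x hdeg hx
  have hm0 : (m : KX C) ≠ 0 := nat_ne (C := KX C) (p := p) (by omega) (by nlinarith)
  have hm0' : (m : ZMod p) ≠ 0 := nat_ne (C := ZMod p) (p := p) (by omega) (by nlinarith)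
  have hN := num_of (C := C) (p := p) (d := d) hn hs hsm hdvd hp
  have hRank : ∃ z l : Fin n → KX C,
      pcv D (FB a (NK ((s : C) / (m : C)))) p = Matrix.vecMulVec z l := by
    have hdp := fun c => dp (C := C) H.frac (p := p) hD c
    set q : ℕ := ((s : ZMod p) / (m : ZMod p) - 1).val with hq
    have hqp : q < p := ZMod.val_lt _
    have hq1 : (q : KX C) + 1 = (s : KX C) / (m : KX C) := by
      have h1 : (q : ZMod p) = (s : ZMod p) / (m : ZMod p) - 1 := by
        rw [hq, ZMod.natCast_val, ZMod.cast_id', id_eq]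
      have h2 : ((m * (q + 1) : ℕ) : ZMod p) = (s : ℕ) := by
        push_cast
        rw [h1]
        field_simp
        ring
      have h3 : ((m * (q + 1) : ℕ) : KX C) = (s : ℕ) := by
        rw [ZMod.natCast_eq_natCast_iff] at h2
        exact (CharP.natCast_eq_natCast (KX C) p).2 h2
      rw [eq_div_iff hm0, ← h3]
      push_cast
      ring
    have h4 := hR (KX C) p D hdp q hqp n (tX C) (aX a) (by
      have := hD X
      rw [derivative_X, map_one] at this
      exact this) (by
      intro j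
      have := hD (Polynomial.C (a j))
      rw [derivative_C, map_zero] at this
      exact this) (by
      intro i j hij
      exact ha (Polynomial.C_injective (ι_inj hij)))
    rw [hq1, Bk_eq] at h4
    exact h4
  rw [Bk_eq] at hx
  exact commK H hD ha (by omega) hN hRank d (by omega) x hdeg hx

theorem kNoForm (H : Hyps) : K_NoForm := by
  intro n m s d hn hs hsm h2s
  refine ⟨(d + 3) * m + (2 * n + 3) * s + n + 3, ?_⟩
  intro C _ p _ _ hp D hD a ha x hdeg hx
  rw [Bk_eq] at hx
  have hm0 : (m : C) ≠ 0 := nat_ne (p := p) (by omega) (by nlinarith)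
  have hp' : (d + 3) * m + (2 * n + 3) * s < p := by omega
  refine noFormK H hD ha (by omega) (d := d) ⟨?_, ?_, ?_⟩ d le_rfl x hdeg (by
    rw [add_comm]
    rw [add_comm] at hx
    exact hx)
  · intro k hkd h0
    refine lin_ne (C := C) (p := p) (k := k) (c := 2 * n - 2) hm0 hp' ?_ ?_ ?_ ?_
    · rw [Nat.abs_cast]; push_cast; omega
    · rw [abs_of_nonneg (by omega)]; push_cast; omega
    · have h1 : 0 ≤ (k : ℤ) * m := by positivity
      have h2 : 1 * (s : ℤ) ≤ (2 * (n : ℤ) - 2) * s :=
        mul_le_mul_of_nonneg_right (by omega) (by positivity)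
      omega
    · push_cast
      exact h0
  · intro k hkd h0
    refine lin_ne (C := C) (p := p) (k := k) (c := n - 2) hm0 hp' ?_ ?_ ?_ ?_
    · rw [Nat.abs_cast]; push_cast; omega
    · rw [abs_of_nonneg (by omega)]; push_cast; omega
    · have h1 : 0 ≤ (k : ℤ) * m := by positivity
      have h2 : 1 * (s : ℤ) ≤ ((n : ℤ) - 2) * s :=
        mul_le_mul_of_nonneg_right (by omega) (by positivity)
      omega
    · push_cast
      exact h0
  · intro k hkd h0
    refine lin_ne (C := C) (p := p) (k := k) (c := -2) hm0 hp' ?_ ?_ ?_ ?_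
    · rw [Nat.abs_cast]; push_cast; omega
    · rw [abs_neg]; norm_num; omega
    · rcases Nat.lt_or_ge k 2 with hk | hk
      · interval_cases k
        · omega
        · omega
      · have h1 : 2 * (m : ℤ) ≤ (k : ℤ) * m := mul_le_mul_of_nonneg_right (by omega) (by positivity)
        omega
    · push_cast
      rw [h0]
      ring

end Pool.Agent.Helper34.BK
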