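import Pool.Agent.Helper34.BM.LI

/-!
# Linear independence for the connection with residues `κ (e - e_l) e_lᵀ` and for its dual
-/

set_option autoImplicit false

open Polynomial Matrix Finset
open Pool.Agent.Helper62.BM Pool.Agent.Helper34.BM

namespace Pool.Agent.Helper34.BK

variable {C : Type} [Field C]

/-- The residue `κ (e - e_l) e_lᵀ`. -/
def NK (κ : C) {n : ℕ} (l : Fin n) : Matrix (Fin n) (Fin n) C :=
  Matrix.of fun i j => if j = l ∧ i ≠ l then κ else 0

theorem NK_mul (κ : C) {n : ℕ} (l : Fin n) : NK κ l * NK κ l = 0 := by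
  ext i j
  simp only [Matrix.mul_apply, NK, Matrix.of_apply, Matrix.zero_apply]
  refine Finset.sum_eq_zero fun k _ => ?_
  by_cases h : k = l
  · simp [h]
  · simp [h]

theorem NK_mulVec (κ : C) {n : ℕ} (l : Fin n) (c : Fin n → C) (i : Fin n) :
    (NK κ l *ᵥ c) i = if i ≠ l then κ * c l else 0 := by
  simp only [Matrix.mulVec, dotProduct, NK, Matrix.of_apply]
  rw [Finset.sum_eq_single l]
  · by_cases h : i = l <;> simp [h]
  · intro b _ hb
    simp [hb]
  · simp

theorem sum_NK (κ : C) {n : ℕ} (c : Fin n → C) (i : Fin n) :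
    ∑ l, (NK κ l *ᵥ c) i = κ * (∑ j, c j - c i) := by
  rw [Finset.sum_congr rfl fun l _ => NK_mulVec κ l c i, ← Finset.sum_filter]
  rw [Finset.filter_ne, ← Finset.mul_sum]
  congr 1
  rw [eq_sub_iff_add_eq, Finset.sum_erase_add _ _ (Finset.mem_univ i)]

/-- The residue of the dual connection. -/
def NKd (κ : C) {n : ℕ} (l : Fin n) : Matrix (Fin n) (Fin n) C := -(NK κ l)ᵀ

theorem NKd_mul (κ : C) {n : ℕ} (l : Fin n) : NKd κ l * NKd κ l = 0 := by
  unfold NKd
  rw [neg_mul_neg, ← Matrix.transpose_mul, NK_mul, Matrix.transpose_zero]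

theorem NKd_mulVec (κ : C) {n : ℕ} (l : Fin n) (c : Fin n → C) (i : Fin n) :
    (NKd κ l *ᵥ c) i = if i = l then -(κ * (∑ j, c j - c l)) else 0 := by
  simp only [Matrix.mulVec, dotProduct, NKd, NK, Matrix.neg_apply, Matrix.transpose_apply,
    Matrix.of_apply]
  by_cases h : i = l
  · subst h
    rw [if_pos rfl]
    simp only [true_and, neg_mul, ite_mul, zero_mul, Finset.sum_neg_distrib]
    rw [← Finset.sum_filter, Finset.filter_ne', ← Finset.mul_sum]
    congr 2
    rw [eq_sub_iff_add_eq, Finset.sum_erase_add _ _ (Finset.mem_univ i)]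
  · rw [if_neg h]
    refine Finset.sum_eq_zero fun j _ => ?_
    rw [if_neg (fun h' => h h'.1)]
    simp

theorem sum_NKd (κ : C) {n : ℕ} (c : Fin n → C) (i : Fin n) :
    ∑ l, (NKd κ l *ᵥ c) i = -(κ * (∑ j, c j - c i)) := by
  rw [Finset.sum_congr rfl fun l _ => NKd_mulVec κ l c i]
  rw [Finset.sum_ite_eq Finset.univ i, if_pos (Finset.mem_univ i)]

theorem deg_drop {n m : ℕ} {v : Fin n → C[X]} (h8 : ∀ i, (v i).natDegree ≤ m + 1)
    (hc : ∀ i, (v i).coeff (m + 1) = 0) (i : Fin n) : (v i).natDegree ≤ m := by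
  have h8 := h8 i
  by_contra h9
  have h10 : (v i).natDegree = m + 1 := by omega
  have h11 : (v i).leadingCoeff = 0 := by
    rw [leadingCoeff, h10]
    exact hc i
  rw [leadingCoeff_eq_zero] at h11
  rw [h11] at h10
  simp at h10

/-- Linear independence. -/
theorem liK (hPcv : S_Pcv) (hRes : S_Res) (hFrac : S_Frac) {p : ℕ} [Fact p.Prime] [CharP C p]
    {D : Der (KX C)} (hD : IsDer D) {n : ℕ} {a : Fin n → C} (ha : Function.Injective a)
    (hn : 2 ≤ n) (hp : 3 ≤ p) {κ : C} (hκ : κ ≠ 0) (m : ℕ)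
    (h1 : ∀ k : ℕ, 1 ≤ k → k ≤ m → (k : C) ≠ κ)
    (h2 : ∀ k : ℕ, 1 ≤ k → k ≤ m → (k : C) + ((n : C) - 1) * κ ≠ 0)
    (v : Fin n → C[X]) (hdeg : ∀ i, (v i).natDegree ≤ m)
    (hv : pcv D (FB a (NK κ)) p *ᵥ (fun i => ι C (v i)) = 0) : v = 0 := by
  induction m generalizing v with
  | zero =>
    have h3 : (nab D (FB a (NK κ)))^[p] (fun i => ι C (v i)) = 0 := by
      rw [pcv_nab hPcv hFrac hD, hv]
    have hres := fun l => res_zero hRes hD ha (NK κ)
      (fun l => by rw [pow_succ, pow_two, NK_mul, zero_mul]) hp v h3 l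
    ext1 l
    have : Nontrivial (Fin n) := Fin.nontrivial_iff_two_le.2 hn
    obtain ⟨i, hi⟩ := exists_ne l
    have h4 := congrFun (hres l) i
    rw [NK_mulVec, if_pos hi, Pi.zero_apply] at h4
    have h5 : (v l).eval (a l) = 0 := by
      rcases mul_eq_zero.1 h4 with h | h
      · exact absurd h hκ
      · exact h
    rw [eq_C_of_natDegree_le_zero (hdeg l), eval_C] at h5
    rw [eq_C_of_natDegree_le_zero (hdeg l), h5]
    simp
  | succ m ih =>
    have h3 : (nab D (FB a (NK κ)))^[p] (fun i => ι C (v i)) = 0 := by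
      rw [pcv_nab hPcv hFrac hD, hv]
    have hres := fun l => res_zero hRes hD ha (NK κ)
      (fun l => by rw [pow_succ, pow_two, NK_mul, zero_mul]) hp v h3 l
    obtain ⟨w, hw1, hw2, hw3⟩ := nab_poly hD (NK κ) v hres hdeg
    have hih := ih (fun k hk hk' => h1 k hk (by omega)) (fun k hk hk' => h2 k hk (by omega))
    have hw : w = 0 := by
      refine hih w hw2 ?_
      rw [← hw1, ← pcv_nab hPcv hFrac hD, ← Function.iterate_succ_apply,
        Function.iterate_succ_apply', h3]
      ext i
      simp [nab]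
    have hc : ∀ i, ((m : C) + 1 - κ) * (v i).coeff (m + 1) +
        κ * ∑ j, (v j).coeff (m + 1) = 0 := by
      intro i
      have h4 := hw3 i
      rw [hw, sum_NK] at h4
      simp only [Pi.zero_apply, coeff_zero] at h4
      linear_combination -h4
    have hs : ∑ j, (v j).coeff (m + 1) = 0 := by
      have h5 : ∑ i, (((m : C) + 1 - κ) * (v i).coeff (m + 1) +
        κ * ∑ j, (v j).coeff (m + 1)) = 0 := Finset.sum_eq_zero fun i _ => hc i
      rw [Finset.sum_add_distrib, ← Finset.mul_sum, Finset.sum_const, Finset.card_univ,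
        Fintype.card_fin, nsmul_eq_mul] at h5
      have h6 : (((m + 1 : ℕ) : C) + ((n : C) - 1) * κ) * ∑ j, (v j).coeff (m + 1) = 0 := by
        push_cast
        linear_combination h5
      rcases mul_eq_zero.1 h6 with h | h
      · exact absurd h (h2 (m + 1) (by omega) le_rfl)
      · exact h
    have hc' : ∀ i, (v i).coeff (m + 1) = 0 := by
      intro i
      have h7 := hc i
      rw [hs, mul_zero, add_zero] at h7
      rcases mul_eq_zero.1 h7 with h | h
      · exfalso
        apply h1 (m + 1) (by omega) le_rfl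
        push_cast
        linear_combination h
      · exact h
    exact hih v (deg_drop hdeg hc') hv

/-- Linear independence for the dual connection. -/
theorem liKd (hPcv : S_Pcv) (hRes : S_Res) (hFrac : S_Frac) {p : ℕ} [Fact p.Prime] [CharP C p]
    {D : Der (KX C)} (hD : IsDer D) {n : ℕ} {a : Fin n → C} (ha : Function.Injective a)
    (hp : 3 ≤ p) {κ : C} (hκ : κ ≠ 0) (m : ℕ) (h0 : (n : C) - 1 ≠ 0)
    (h1 : ∀ k : ℕ, 1 ≤ k → k ≤ m → (k : C) + κ ≠ 0)
    (h2 : ∀ k : ℕ, 1 ≤ k → k ≤ m → (k : C) ≠ ((n : C) - 1) * κ)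
    (v : Fin n → C[X]) (hdeg : ∀ i, (v i).natDegree ≤ m)
    (hv : pcv D (FB a (NKd κ)) p *ᵥ (fun i => ι C (v i)) = 0) : v = 0 := by
  induction m generalizing v with
  | zero =>
    have h3 : (nab D (FB a (NKd κ)))^[p] (fun i => ι C (v i)) = 0 := by
      rw [pcv_nab hPcv hFrac hD, hv]
    have hres := fun l => res_zero hRes hD ha (NKd κ)
      (fun l => by rw [pow_succ, pow_two, NKd_mul, zero_mul]) hp v h3 l
    have hev : ∀ l i, (v i).eval (a l) = (v i).coeff 0 := by
      intro l i
      conv_lhs => rw [eq_C_of_natDegree_le_zero (hdeg i), eval_C]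
    have h4 : ∀ l, ∑ j, (v j).coeff 0 - (v l).coeff 0 = 0 := by
      intro l
      have h5 := congrFun (hres l) l
      rw [NKd_mulVec, if_pos rfl, Pi.zero_apply] at h5
      simp only [hev] at h5
      rcases mul_eq_zero.1 (neg_eq_zero.1 h5) with h | h
      · exact absurd h hκ
      · exact h
    have h5 : ∑ j, (v j).coeff 0 = 0 := by
      have h6 : ∑ l, (∑ j, (v j).coeff 0 - (v l).coeff 0) = 0 :=
        Finset.sum_eq_zero fun l _ => h4 l
      rw [Finset.sum_sub_distrib, Finset.sum_const, Finset.card_univ, Fintype.card_fin,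
        nsmul_eq_mul] at h6
      have h7 : ((n : C) - 1) * ∑ j, (v j).coeff 0 = 0 := by linear_combination h6
      rcases mul_eq_zero.1 h7 with h | h
      · exact absurd h h0
      · exact h
    ext1 l
    have h6 := h4 l
    rw [h5, zero_sub, neg_eq_zero] at h6
    rw [eq_C_of_natDegree_le_zero (hdeg l), h6]
    simp
  | succ m ih =>
    have h3 : (nab D (FB a (NKd κ)))^[p] (fun i => ι C (v i)) = 0 := by
      rw [pcv_nab hPcv hFrac hD, hv]
    have hres := fun l => res_zero hRes hD ha (NKd κ)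
      (fun l => by rw [pow_succ, pow_two, NKd_mul, zero_mul]) hp v h3 l
    obtain ⟨w, hw1, hw2, hw3⟩ := nab_poly hD (NKd κ) v hres hdeg
    have hih := ih (fun k hk hk' => h1 k hk (by omega)) (fun k hk hk' => h2 k hk (by omega))
    have hw : w = 0 := by
      refine hih w hw2 ?_
      rw [← hw1, ← pcv_nab hPcv hFrac hD, ← Function.iterate_succ_apply,
        Function.iterate_succ_apply', h3]
      ext i
      simp [nab]
    have hc : ∀ i, ((m : C) + 1 + κ) * (v i).coeff (m + 1) -
        κ * ∑ j, (v j).coeff (m + 1) = 0 := by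
      intro i
      have h4 := hw3 i
      rw [hw, sum_NKd] at h4
      simp only [Pi.zero_apply, coeff_zero] at h4
      linear_combination -h4
    have hs : ∑ j, (v j).coeff (m + 1) = 0 := by
      have h5 : ∑ i, (((m : C) + 1 + κ) * (v i).coeff (m + 1) -
        κ * ∑ j, (v j).coeff (m + 1)) = 0 := Finset.sum_eq_zero fun i _ => hc i
      rw [Finset.sum_sub_distrib, ← Finset.mul_sum, Finset.sum_const, Finset.card_univ,
        Fintype.card_fin, nsmul_eq_mul] at h5
      have h6 : (((m + 1 : ℕ) : C) - ((n : C) - 1) * κ) * ∑ j, (v j).coeff (m + 1) = 0 := by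
        push_cast
        linear_combination h5
      rcases mul_eq_zero.1 h6 with h | h
      · exact absurd (sub_eq_zero.1 h) (h2 (m + 1) (by omega) le_rfl)
      · exact h
    have hc' : ∀ i, (v i).coeff (m + 1) = 0 := by
      intro i
      have h7 := hc i
      rw [hs, mul_zero, sub_zero] at h7
      rcases mul_eq_zero.1 h7 with h | h
      · exfalso
        apply h1 (m + 1) (by omega) le_rfl
        push_cast
        exact h
      · exact h
    exact hih v (deg_drop hdeg hc') hv

end Pool.Agent.Helper34.BK
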